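import Pool.Agent.Lib.MP_4eb2ef_nt.Exp49

/-! No odd perfect number `q ^ k * n ^ 2` in Eulerian form has `k + 1` divisible by
`53130 = 2 * 3 * 5 * 7 * 11 * 23` or by `131670 = 2 * 3 ^ 2 * 5 * 7 * 11 * 19`. -/

set_option autoImplicit false

namespace Pool.Agent.Results.MP_4eb2ef_nt.ExcludedExponents

theorem result :
    ∀ N q k n : ℕ, Odd N → Nat.Perfect N → q.Prime → q % 4 = 1 → k % 4 = 1 →
      Nat.Coprime q n → N = q ^ k * n ^ 2 → ¬ 53130 ∣ k + 1 ∧ ¬ 131670 ∣ k + 1 :=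
  fun _ _ _ _ hN hperf hq hq4 hk4 hcop hNe =>
    Pool.Agent.Lib.MP_4eb2ef_nt.Exp49.not_dvd ⟨hN, hperf, hq, hq4, hk4, hcop, hNe⟩

end Pool.Agent.Results.MP_4eb2ef_nt.ExcludedExponents
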