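import Pool.Agent.Lib.MP_4eb2ef_nt.GlobalOpn

/-! If the special prime `q` of an odd perfect number `q ^ k * n ^ 2` has exponent `k > 1`, then
`q ^ 7 ≤ 80 * n ^ 2`. -/

set_option autoImplicit false

namespace Pool.Agent.Results.MP_4eb2ef_nt.SeventhPower

theorem result :
    ∀ N q k n : ℕ, Odd N → Nat.Perfect N → q.Prime → q % 4 = 1 → k % 4 = 1 →
      Nat.Coprime q n → N = q ^ k * n ^ 2 → 1 < k → q ^ 7 ≤ 80 * n ^ 2 :=
  fun _ _ _ _ hN hperf hq hq4 hk4 hcop hNe hk =>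
    Pool.Agent.Lib.MP_4eb2ef_nt.seventh_power hN hperf hq hq4 hk4 hcop hNe hk

end Pool.Agent.Results.MP_4eb2ef_nt.SeventhPower
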